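import Pool.Agent.H97.RK.Targets

/-!
Random formulas and resolution at the scale of SETH (MP_c62aed_lc): row PX1: the formulas without
the property `X1`.
-/

set_option autoImplicit false

namespace Pool.Agent.H11.RKS

open Finset Pool.Agent.H97.RK

/-- at least `j` positions of the clause have a variable in `U` -/
def pU {n k : ℕ} (j : ℕ) (U : Finset (Fin n)) (g : Fin k → Fin n × Bool) : Prop :=
  j ≤ (univ.filter fun i => (g i).1 ∈ U).card

open Classical in
theorem bnd (n k j s : ℕ) (hn : 1 ≤ n) (U : Finset (Fin n)) (hU : U.card = s) :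
    ((univ.filter (pU (k := k) j U)).card : ℝ) ≤
      k.choose j * ((s : ℝ) / n) ^ j * (2 * n) ^ k := by
  have hn' : (0 : ℝ) < n := by exact_mod_cast hn
  have h1 : (univ.filter (pU (k := k) j U)) ⊆
      (powersetCard j (univ : Finset (Fin k))).biUnion fun I =>
        Fintype.piFinset fun i => if i ∈ I then U ×ˢ (univ : Finset Bool) else univ := by
    intro g hg
    rw [mem_filter] at hg
    have hg2 : j ≤ (univ.filter fun i => (g i).1 ∈ U).card := hg.2
    obtain ⟨I, hI, hc⟩ := exists_subset_card_eq hg2
    rw [mem_biUnion]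
    refine ⟨I, mem_powersetCard.mpr ⟨subset_univ _, hc⟩, ?_⟩
    rw [Fintype.mem_piFinset]
    intro i
    split_ifs with hi
    · have := (mem_filter.mp (hI hi)).2
      exact mem_product.mpr ⟨this, mem_univ _⟩
    · exact mem_univ _
  have h2 : ∀ I ∈ powersetCard j (univ : Finset (Fin k)),
      ((Fintype.piFinset fun i => if i ∈ I then U ×ˢ (univ : Finset Bool) else
        (univ : Finset (Fin n × Bool))).card : ℝ) = ((s : ℝ) / n) ^ j * (2 * n) ^ k := by
    intro I hI
    have hc := (mem_powersetCard.mp hI).2
    rw [Fintype.card_piFinset]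
    push_cast
    have h3 : ∀ i ∈ (univ : Finset (Fin k)),
        ((if i ∈ I then U ×ˢ (univ : Finset Bool) else (univ : Finset (Fin n × Bool))).card : ℝ) =
          (if i ∈ I then ((s : ℝ) / n) else 1) * (2 * n) := by
      intro i _
      split_ifs
      · rw [card_product, hU]
        simp only [card_univ, Fintype.card_bool]
        push_cast
        field_simp
      · simp only [card_univ, Fintype.card_prod, Fintype.card_bool, Fintype.card_fin]
        push_cast
        ring
    rw [prod_congr rfl h3, prod_mul_distrib, prod_ite_mem, univ_inter, prod_const, prod_const, hc,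
      card_univ, Fintype.card_fin]
  calc ((univ.filter (pU (k := k) j U)).card : ℝ)
      ≤ (((powersetCard j (univ : Finset (Fin k))).biUnion fun I =>
        Fintype.piFinset fun i => if i ∈ I then U ×ˢ (univ : Finset Bool) else
          (univ : Finset (Fin n × Bool))).card : ℝ) := by
        exact_mod_cast card_le_card h1
    _ ≤ ∑ I ∈ powersetCard j (univ : Finset (Fin k)),
        ((Fintype.piFinset fun i => if i ∈ I then U ×ˢ (univ : Finset Bool) else
          (univ : Finset (Fin n × Bool))).card : ℝ) := by
        exact_mod_cast card_biUnion_le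
    _ = _ := by
        rw [sum_congr rfl h2, sum_const, card_powersetCard, card_univ, Fintype.card_fin,
          nsmul_eq_mul]
        ring

theorem pf_PX1 (hPBN : T_PBN) : T_PX1 := by
  classical
  intro n k m j s₀ hn hs
  have hn' : (0 : ℝ) < n := by exact_mod_cast hn
  have hN : (0 : ℝ) < (2 * n) ^ k := by positivity
  set ct : ℕ → Finset (Fin n) → Finset (Fml n k m) := fun s U =>
    univ.filter fun F : Fml n k m => s ≤ (univ.filter fun c => pU j U (F c)).card with hct
  have h1 : (univ.filter fun F : Fml n k m => ¬ X1 F j s₀) ⊆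
      (Icc 1 s₀).biUnion fun s => (powersetCard s (univ : Finset (Fin n))).biUnion fun U =>
        ct s U := by
    intro F hF
    rw [mem_filter] at hF
    have h2 := hF.2
    unfold X1 at h2
    push Not at h2
    obtain ⟨U, s, h3, h4, h5, h6⟩ := h2
    obtain ⟨U', hU, hc⟩ := exists_superset_card_eq h5 (by
      rw [Fintype.card_fin]
      omega)
    rw [mem_biUnion]
    refine ⟨s, mem_Icc.mpr ⟨h3, h4⟩, ?_⟩
    rw [mem_biUnion]
    refine ⟨U', mem_powersetCard.mpr ⟨subset_univ _, hc⟩, ?_⟩
    rw [hct, mem_filter]
    refine ⟨mem_univ _, h6.trans (card_le_card fun c hc' => ?_)⟩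
    rw [mem_filter] at hc' ⊢
    refine ⟨mem_univ _, (show j ≤ (univ.filter fun i => (F c i).1 ∈ U').card from
      (show j ≤ (univ.filter fun i => (F c i).1 ∈ U).card from hc'.2).trans
        (card_le_card fun i hi => ?_))⟩
    rw [mem_filter] at hi ⊢
    exact ⟨mem_univ _, hU hi.2⟩
  have h2 : ∀ s ∈ Icc 1 s₀, ∀ U ∈ powersetCard s (univ : Finset (Fin n)),
      ((ct s U).card : ℝ) ≤ m.choose s * (k.choose j * ((s : ℝ) / n) ^ j) ^ s *
        ((2 * n) ^ k : ℝ) ^ m := by
    intro s _ U hU
    have hc := (mem_powersetCard.mp hU).2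
    have h3 := hPBN n k m s (pU j U)
    have h4 := bnd n k j s hn U hc
    have h5 : ((ct s U).card : ℝ) * ((2 * n) ^ k : ℝ) ^ s ≤
        m.choose s * (k.choose j * ((s : ℝ) / n) ^ j) ^ s * ((2 * n) ^ k : ℝ) ^ m *
          ((2 * n) ^ k : ℝ) ^ s := by
      refine le_trans (le_of_eq ?_) (h3.trans ?_)
      · rfl
      · calc _ ≤ (m.choose s : ℝ) * (k.choose j * ((s : ℝ) / n) ^ j * (2 * n) ^ k) ^ s *
              ((2 * n) ^ k : ℝ) ^ m := by
              refine mul_le_mul_of_nonneg_right ?_ (by positivity)
              refine mul_le_mul_of_nonneg_left ?_ (by positivity)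
              exact pow_le_pow_left₀ (by positivity) h4 s
          _ = _ := by
              rw [mul_pow]
              ring
    exact le_of_mul_le_mul_right h5 (by positivity)
  calc ((univ.filter fun F : Fml n k m => ¬ X1 F j s₀).card : ℝ)
      ≤ (((Icc 1 s₀).biUnion fun s => (powersetCard s (univ : Finset (Fin n))).biUnion fun U =>
        ct s U).card : ℝ) := by exact_mod_cast card_le_card h1
    _ ≤ ∑ s ∈ Icc 1 s₀, ∑ U ∈ powersetCard s (univ : Finset (Fin n)), ((ct s U).card : ℝ) := by
        have h3 : (((Icc 1 s₀).biUnion fun s =>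
            (powersetCard s (univ : Finset (Fin n))).biUnion fun U => ct s U).card) ≤
            ∑ s ∈ Icc 1 s₀, ∑ U ∈ powersetCard s (univ : Finset (Fin n)), (ct s U).card :=
          card_biUnion_le.trans (sum_le_sum fun s _ => card_biUnion_le)
        exact_mod_cast h3
    _ ≤ ∑ s ∈ Icc 1 s₀, ∑ U ∈ powersetCard s (univ : Finset (Fin n)),
        (m.choose s * (k.choose j * ((s : ℝ) / n) ^ j) ^ s * ((2 * n) ^ k : ℝ) ^ m) :=
        sum_le_sum fun s hs' => sum_le_sum fun U hU => h2 s hs' U hU
    _ = _ := by
        rw [sum_mul]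
        refine sum_congr rfl fun s _ => ?_
        rw [sum_const, card_powersetCard, card_univ, Fintype.card_fin, nsmul_eq_mul]
        ring

end Pool.Agent.H11.RKS
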